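import Mathlib

/-!
# `{45123, 45213}` and `{12345, 12354}` are Wilf-equivalent

Both steps of the proof are instances of one lemma. Let `T` be a set of patterns and let `A` (`B`) be the set of
the patterns `(σ ⊖ 1) ⊕ τ` (`(σ ⊕ 1) ⊕ τ`) with `σ` of length `k` and `τ` in `T`. Then `A` and `B` are
Wilf-equivalent. For the points of a permutation below and to the left of an occurrence of `T` form a filling of
a Ferrers board; if the filling is read column by column from the right, then the number of the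
choices in a column is the same for both conditions, the minimum of `k` and the number of free rows.

`45123, 45213` (inverse, complement) `32154, 23154` (lemma, `k = 2`, `T = {21}`) `12354, 21354` (reverse,
complement) `21345, 21354` (lemma, `k = 1`, `T = {123, 132}`) `12345, 12354`.
-/

set_option autoImplicit false

namespace Pool.Agent.Results.MP_b2be16_co.WilfEquivalent

open Finset Equiv

/-- The permutation `π` of `n` elements contains the pattern `σ`: some subsequence of `π` is in the same relative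
order as `σ`. -/
def Contains {n m : ℕ} (π : Perm (Fin n)) (σ : Fin m → ℕ) : Prop :=
  ∃ g : Fin m → Fin n, StrictMono g ∧ ∀ a b, π (g a) < π (g b) ↔ σ a < σ b

section Count

variable {n : ℕ}

open Classical in
/-- the permutations which agree with `π₀` outside `S`, stay in the board `D` on `S`, and satisfy the
condition given by `rel` and `k` -/
noncomputable def X (k : ℕ) (rel : Fin n → Fin n → Prop) (D : Fin n → Fin n → Prop) (S : Finset (Fin n))
    (π₀ : Perm (Fin n)) : Finset (Perm (Fin n)) :=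
  univ.filter fun π => (∀ i, i ∉ S → π i = π₀ i) ∧ (∀ i ∈ S, D i (π i)) ∧
    ∀ i ∈ S, (S.filter fun i' => i' < i ∧ rel (π i) (π i') ∧ D i (π i')).card < k

theorem image_eq {S : Finset (Fin n)} {π π₀ : Perm (Fin n)} (h : ∀ i, i ∉ S → π i = π₀ i) :
    S.image π = S.image π₀ := by
  have aux : ∀ (π π₀ : Perm (Fin n)), (∀ i, i ∉ S → π i = π₀ i) → S.image π ⊆ S.image π₀ := by
    intro π π₀ h x hx
    rw [mem_image] at hx ⊢
    obtain ⟨i, hi, rfl⟩ := hx
    refine ⟨π₀.symm (π i), ?_, by simp⟩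
    by_contra hcon
    have h1 := h _ hcon
    rw [Equiv.apply_symm_apply] at h1
    have h2 := π.injective h1
    rw [h2] at hcon
    exact hcon hi
  exact subset_antisymm (aux _ _ h) (aux _ _ fun i hi => (h i hi).symm)

open Classical in
theorem card_cond {rel : Fin n → Fin n → Prop} (hirr : ∀ r, ¬ rel r r) {D : Fin n → Fin n → Prop}
    {c : Fin n} {S' : Finset (Fin n)} (hc : ∀ x ∈ S', x < c) (π : Perm (Fin n)) :
    ((insert c S').filter fun i' => i' < c ∧ rel (π c) (π i') ∧ D c (π i')).card =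
      ((((insert c S').image π).filter (D c)).filter (rel (π c))).card := by
  rw [filter_filter, filter_image, card_image_of_injective _ π.injective]
  congr 1
  ext i
  simp only [mem_filter, mem_insert]
  constructor
  · rintro ⟨h1, _, h3, h4⟩
    exact ⟨h1, h4, h3⟩
  · rintro ⟨h1, h3, h4⟩
    refine ⟨h1, ?_, h4, h3⟩
    rcases h1 with rfl | h1
    · exact absurd h4 (hirr _)
    · exact hc _ h1

open Classical in
theorem count {k : ℕ} {rel : Fin n → Fin n → Prop} (hirr : ∀ r, ¬ rel r r)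
    (hrel : ∀ R : Finset (Fin n), (R.filter fun r => (R.filter (rel r)).card < k).card = min k R.card)
    {D : Fin n → Fin n → Prop} (hD : ∀ i i' j, i' ≤ i → D i j → D i' j) (S : Finset (Fin n)) :
    ∀ π₀ : Perm (Fin n), (X k rel D S π₀).card =
      ∏ c ∈ S, min k (((S.image π₀).filter (D c)).card - (S.filter fun c' => c < c').card) := by
  induction S using Finset.induction_on_max with
  | empty =>
    intro π₀
    rw [prod_empty]
    rw [card_eq_one]
    refine ⟨π₀, ?_⟩
    ext π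
    rw [X, mem_filter, mem_singleton]
    constructor
    · rintro ⟨_, h, _⟩
      ext i
      rw [h i (notMem_empty _)]
    · rintro rfl
      exact ⟨mem_univ _, fun _ _ => rfl, fun i hi => absurd hi (notMem_empty _),
        fun i hi => absurd hi (notMem_empty _)⟩
  | insert c S' hc ih =>
    intro π₀
    have hcS : c ∉ S' := fun h => lt_irrefl _ (hc c h)
    set S := insert c S' with hS
    set R := (S.image π₀).filter (D c) with hR
    set Rok := R.filter (fun r => (R.filter (rel r)).card < k) with hRok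
    have hmaps : ∀ π ∈ X k rel D S π₀, π c ∈ Rok := by
      intro π hπ
      rw [X, mem_filter] at hπ
      obtain ⟨_, h1, h2, h3⟩ := hπ
      rw [hRok, mem_filter, hR, mem_filter, ← image_eq h1]
      refine ⟨⟨mem_image_of_mem _ (mem_insert_self _ _), h2 c (mem_insert_self _ _)⟩, ?_⟩
      rw [← card_cond hirr hc]
      exact h3 c (mem_insert_self _ _)
    rw [card_eq_sum_card_fiberwise hmaps]
    have hfib : ∀ r ∈ Rok, ((X k rel D S π₀).filter fun π => π c = r) =
        X k rel D S' (π₀ * swap c (π₀.symm r)) := by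
      intro r hr
      rw [hRok, mem_filter, hR, mem_filter, mem_image] at hr
      obtain ⟨⟨⟨s, hs, hsr⟩, hDr⟩, hcardr⟩ := hr
      have hs' : π₀.symm r = s := by rw [← hsr, Equiv.symm_apply_apply]
      have hp1 : (π₀ * swap c (π₀.symm r)) c = r := by
        rw [Perm.mul_apply, swap_apply_left, Equiv.apply_symm_apply]
      have hp2 : ∀ i, i ∉ S → (π₀ * swap c (π₀.symm r)) i = π₀ i := by
        intro i hi
        rw [Perm.mul_apply, swap_apply_of_ne_of_ne]
        · rintro rfl
          exact hi (mem_insert_self _ _)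
        · rintro rfl
          rw [hs'] at hi
          exact hi hs
      ext π
      rw [mem_filter, X, X, mem_filter, mem_filter]
      constructor
      · rintro ⟨⟨_, h1, h2, h3⟩, h4⟩
        refine ⟨mem_univ _, ?_, fun i hi => h2 i (mem_insert_of_mem hi), ?_⟩
        · intro i hi
          by_cases hic : i = c
          · rw [hic, hp1, h4]
          · have hiS : i ∉ S := by
              rw [hS, mem_insert]
              tauto
            rw [hp2 i hiS]
            exact h1 i hiS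
        · intro i hi
          have h5 := h3 i (mem_insert_of_mem hi)
          refine lt_of_le_of_lt (card_le_card ?_) h5
          intro x hx
          rw [mem_filter] at hx ⊢
          exact ⟨mem_insert_of_mem hx.1, hx.2⟩
      · rintro ⟨_, h1, h2, h3⟩
        have h4 : π c = r := by rw [h1 c hcS, hp1]
        have h5 : ∀ i, i ∉ S → π i = π₀ i := by
          intro i hi
          rw [h1 i (fun h => hi (mem_insert_of_mem h)), hp2 i hi]
        refine ⟨⟨mem_univ _, h5, ?_, ?_⟩, h4⟩
        · intro i hi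
          rw [hS, mem_insert] at hi
          rcases hi with rfl | hi
          · rw [h4]
            exact hDr
          · exact h2 i hi
        · intro i hi
          rw [hS, mem_insert] at hi
          rcases hi with rfl | hi
          · rw [card_cond hirr hc, h4, ← hS, image_eq h5]
            exact hcardr
          · refine lt_of_le_of_lt (card_le_card ?_) (h3 i hi)
            intro x hx
            rw [mem_filter, hS, mem_insert] at hx
            rw [mem_filter]
            rcases hx.1 with rfl | h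
            · exact absurd (hx.2.1.trans (hc i hi)) (lt_irrefl _)
            · exact ⟨h, hx.2⟩
    have hfib2 : ∀ r ∈ Rok, ((X k rel D S π₀).filter fun π => π c = r).card =
        ∏ c' ∈ S', min k (((S.image π₀).filter (D c')).card - (S.filter fun c'' => c' < c'').card) := by
      intro r hr
      rw [hfib r hr, ih]
      apply prod_congr rfl
      intro c' hc'
      rw [hRok, mem_filter, hR, mem_filter, mem_image] at hr
      obtain ⟨⟨⟨s, hs, hsr⟩, hDr⟩, hcardr⟩ := hr
      have hs' : π₀.symm r = s := by rw [← hsr, Equiv.symm_apply_apply]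
      have hp1 : (π₀ * swap c (π₀.symm r)) c = r := by
        rw [Perm.mul_apply, swap_apply_left, Equiv.apply_symm_apply]
      have hp2 : ∀ i, i ∉ S → (π₀ * swap c (π₀.symm r)) i = π₀ i := by
        intro i hi
        rw [Perm.mul_apply, swap_apply_of_ne_of_ne]
        · rintro rfl
          exact hi (mem_insert_self _ _)
        · rintro rfl
          rw [hs'] at hi
          exact hi hs
      have him : S.image π₀ = insert r (S'.image (π₀ * swap c (π₀.symm r))) := by
        rw [← image_eq hp2, hS, image_insert, hp1]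
      have hnot : r ∉ S'.image (π₀ * swap c (π₀.symm r)) := by
        intro h
        rw [mem_image] at h
        obtain ⟨x, hx, hxr⟩ := h
        have := (π₀ * swap c (π₀.symm r)).injective (hxr.trans hp1.symm)
        rw [this] at hx
        exact hcS hx
      have h1 : ((S.image π₀).filter (D c')).card =
          ((S'.image (π₀ * swap c (π₀.symm r))).filter (D c')).card + 1 := by
        rw [him, filter_insert, if_pos (hD c c' r (hc c' hc').le hDr), card_insert_of_notMem]
        intro h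
        exact hnot (mem_filter.1 h).1
      have h2 : (S.filter fun c'' => c' < c'').card = (S'.filter fun c'' => c' < c'').card + 1 := by
        rw [hS, filter_insert, if_pos (hc c' hc'), card_insert_of_notMem]
        intro h
        exact hcS (mem_filter.1 h).1
      rw [h1, h2, Nat.add_sub_add_right]
    rw [sum_congr rfl hfib2, sum_const, smul_eq_mul, prod_insert hcS]
    congr 1
    rw [hRok, hrel]
    congr 1
    have : (S.filter fun c' => c < c') = ∅ := by
      apply filter_eq_empty_iff.2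
      intro x hx
      rw [hS, mem_insert] at hx
      rcases hx with rfl | hx
      · exact lt_irrefl _
      · exact not_lt.2 (hc x hx).le
    rw [this, card_empty, Nat.sub_zero]

open Classical in
theorem rel_gt (k : ℕ) (R : Finset (Fin n)) :
    (R.filter fun r => (R.filter fun r' => r < r').card < k).card = min k R.card := by
  induction R using Finset.induction_on_min with
  | empty => simp
  | insert a s ha ih =>
    have has : a ∉ s := fun h => lt_irrefl _ (ha a h)
    have h1 : ∀ r ∈ s, ((insert a s).filter fun r' => r < r').card = (s.filter fun r' => r < r').card := by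
      intro r hr
      rw [filter_insert, if_neg (not_lt.2 (ha r hr).le)]
    have h2 : ((insert a s).filter fun r' => a < r').card = s.card := by
      rw [filter_insert, if_neg (lt_irrefl _)]
      congr 1
      apply filter_true_of_mem
      exact ha
    rw [filter_insert, h2]
    have h3 : (s.filter fun r => ((insert a s).filter fun r' => r < r').card < k) =
        (s.filter fun r => (s.filter fun r' => r < r').card < k) := by
      apply filter_congr
      intro r hr
      rw [h1 r hr]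
    rw [h3]
    split_ifs with h
    · rw [card_insert_of_notMem (fun h' => has (mem_filter.1 h').1), ih, card_insert_of_notMem has]
      omega
    · rw [ih, card_insert_of_notMem has]
      omega

open Classical in
theorem rel_lt (k : ℕ) (R : Finset (Fin n)) :
    (R.filter fun r => (R.filter fun r' => r' < r).card < k).card = min k R.card := by
  induction R using Finset.induction_on_max with
  | empty => simp
  | insert a s ha ih =>
    have has : a ∉ s := fun h => lt_irrefl _ (ha a h)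
    have h1 : ∀ r ∈ s, ((insert a s).filter fun r' => r' < r).card = (s.filter fun r' => r' < r).card := by
      intro r hr
      rw [filter_insert, if_neg (not_lt.2 (ha r hr).le)]
    have h2 : ((insert a s).filter fun r' => r' < a).card = s.card := by
      rw [filter_insert, if_neg (lt_irrefl _)]
      congr 1
      apply filter_true_of_mem
      exact ha
    rw [filter_insert, h2]
    have h3 : (s.filter fun r => ((insert a s).filter fun r' => r' < r).card < k) =
        (s.filter fun r => (s.filter fun r' => r' < r).card < k) := by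
      apply filter_congr
      intro r hr
      rw [h1 r hr]
    rw [h3]
    split_ifs with h
    · rw [card_insert_of_notMem (fun h' => has (mem_filter.1 h').1), ih, card_insert_of_notMem has]
      omega
    · rw [ih, card_insert_of_notMem has]
      omega

end Count

section Dominated

variable {n m : ℕ}

/-- There is an occurrence of the pattern (given by the condition `Q` on its values) strictly to the right of the
position `i` and strictly above the value `j`. -/
def Dom (Q : (Fin m → Fin n) → Prop) (π : Perm (Fin n)) (i j : Fin n) : Prop :=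
  ∃ g : Fin m → Fin n, StrictMono g ∧ Q (fun a => π (g a)) ∧ ∀ a, i < g a ∧ j < π (g a)

theorem dom_mono {Q : (Fin m → Fin n) → Prop} {π : Perm (Fin n)} {i i' j j' : Fin n} (hi : i' ≤ i)
    (hj : j' ≤ j) (h : Dom Q π i j) : Dom Q π i' j' := by
  obtain ⟨g, h1, h2, h3⟩ := h
  exact ⟨g, h1, h2, fun a => ⟨lt_of_le_of_lt hi (h3 a).1, lt_of_le_of_lt hj (h3 a).2⟩⟩

theorem dom_strong {Q : (Fin m → Fin n) → Prop} {π : Perm (Fin n)} (i j : Fin n) (h : Dom Q π i j) :
    ∃ g : Fin m → Fin n, StrictMono g ∧ Q (fun a => π (g a)) ∧ (∀ a, i < g a ∧ j < π (g a)) ∧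
      ∀ a, ¬ Dom Q π (g a) (π (g a)) := by
  induction hk : n - (i : ℕ) using Nat.strong_induction_on generalizing i j with
  | _ k ih =>
    obtain ⟨g, h1, h2, h3⟩ := h
    by_cases hcon : ∃ a, Dom Q π (g a) (π (g a))
    · obtain ⟨a, ha⟩ := hcon
      have h4 : n - (g a : ℕ) < k := by
        have h5 := (h3 a).1
        have h6 := (g a).2
        rw [Fin.lt_def] at h5
        omega
      obtain ⟨g', e1, e2, e3, e4⟩ := ih _ h4 (g a) (π (g a)) ha rfl
      exact ⟨g', e1, e2, fun b => ⟨(h3 a).1.trans (e3 b).1, (h3 a).2.trans (e3 b).2⟩, e4⟩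
    · push Not at hcon
      exact ⟨g, h1, h2, h3, hcon⟩

theorem dom_congr {Q : (Fin m → Fin n) → Prop} {π π' : Perm (Fin n)}
    (h1 : ∀ i, ¬ Dom Q π i (π i) → π' i = π i) (h2 : ∀ i, Dom Q π i (π i) → Dom Q π i (π' i)) :
    Dom Q π' = Dom Q π := by
  funext i j
  apply propext
  constructor
  · rintro ⟨g, e1, e2, e3⟩
    by_cases hcon : ∃ a, Dom Q π (g a) (π (g a))
    · obtain ⟨a, ha⟩ := hcon
      exact dom_mono (e3 a).1.le (e3 a).2.le (h2 _ ha)
    · push Not at hcon
      have h4 : ∀ a, π' (g a) = π (g a) := fun a => h1 _ (hcon a)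
      refine ⟨g, e1, ?_, fun a => ⟨(e3 a).1, ?_⟩⟩
      · simpa only [h4] using e2
      · rw [← h4]
        exact (e3 a).2
  · intro h
    obtain ⟨g, e1, e2, e3, e4⟩ := dom_strong i j h
    have h4 : ∀ a, π' (g a) = π (g a) := fun a => h1 _ (e4 a)
    refine ⟨g, e1, ?_, fun a => ⟨(e3 a).1, ?_⟩⟩
    · simpa only [h4] using e2
    · rw [h4]
      exact (e3 a).2

open Classical in
/-- the condition on a permutation -/
def Good (Q : (Fin m → Fin n) → Prop) (k : ℕ) (rel : Fin n → Fin n → Prop) (π : Perm (Fin n)) : Prop :=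
  ∀ i, Dom Q π i (π i) →
    ((univ.filter fun i' => Dom Q π i' (π i')).filter
      fun i' => i' < i ∧ rel (π i) (π i') ∧ Dom Q π i (π i')).card < k

open Classical in
/-- the points which are not dominated, and the board -/
noncomputable def key (Q : (Fin m → Fin n) → Prop) (π : Perm (Fin n)) :
    (Fin n → Fin n → Prop) × (Fin n → Option (Fin n)) :=
  (Dom Q π, fun i => if Dom Q π i (π i) then none else some (π i))

open Classical in
theorem class_eq (Q : (Fin m → Fin n) → Prop) (k : ℕ) (rel : Fin n → Fin n → Prop) (π₀ : Perm (Fin n)) :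
    (univ.filter fun π => Good Q k rel π ∧ key Q π = key Q π₀) =
      X k rel (Dom Q π₀) (univ.filter fun i => Dom Q π₀ i (π₀ i)) π₀ := by
  ext π
  rw [X, mem_filter, mem_filter]
  constructor
  · rintro ⟨_, h1, h2⟩
    have hD : Dom Q π = Dom Q π₀ := congrArg Prod.fst h2
    have hK : ∀ i, (if Dom Q π i (π i) then none else some (π i)) =
        (if Dom Q π₀ i (π₀ i) then none else some (π₀ i)) := fun i => congrFun (congrArg Prod.snd h2) i
    have hiff : ∀ i, Dom Q π₀ i (π i) ↔ Dom Q π₀ i (π₀ i) := by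
      intro i
      have := hK i
      rw [hD] at this
      split_ifs at this with h3 h4
      · exact ⟨fun _ => h4, fun _ => h3⟩
      · exact ⟨fun h => absurd h h3, fun h => absurd h (by assumption)⟩
    refine ⟨mem_univ _, ?_, ?_, ?_⟩
    · intro i hi
      rw [mem_filter, not_and] at hi
      have h3 := hi (mem_univ _)
      have h4 := hK i
      rw [hD, if_neg h3, if_neg (fun h => h3 ((hiff i).1 h))] at h4
      exact Option.some_injective _ h4
    · intro i hi
      rw [mem_filter] at hi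
      exact (hiff i).2 hi.2
    · intro i hi
      rw [mem_filter] at hi
      have h3 := h1 i (by rw [hD]; exact (hiff i).2 hi.2)
      rw [hD] at h3
      convert h3 using 4
      exact (hiff _).symm
  · rintro ⟨_, h1, h2, h3⟩
    have h1' : ∀ i, ¬ Dom Q π₀ i (π₀ i) → π i = π₀ i := fun i hi =>
      h1 i (fun h => hi (mem_filter.1 h).2)
    have h2' : ∀ i, Dom Q π₀ i (π₀ i) → Dom Q π₀ i (π i) := fun i hi =>
      h2 i (mem_filter.2 ⟨mem_univ _, hi⟩)
    have hD : Dom Q π = Dom Q π₀ := dom_congr h1' h2'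
    have hiff : ∀ i, Dom Q π₀ i (π i) ↔ Dom Q π₀ i (π₀ i) := by
      intro i
      constructor
      · intro h
        by_contra hcon
        rw [h1' i hcon] at h
        exact hcon h
      · exact h2' i
    refine ⟨mem_univ _, ?_, ?_⟩
    · intro i hi
      rw [hD, hiff] at hi
      have h4 := h3 i (mem_filter.2 ⟨mem_univ _, hi⟩)
      rw [hD]
      convert h4 using 4
      exact hiff _
    · refine Prod.ext hD ?_
      funext i
      show (if Dom Q π i (π i) then none else some (π i)) =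
        (if Dom Q π₀ i (π₀ i) then none else some (π₀ i))
      rw [hD]
      by_cases h : Dom Q π₀ i (π₀ i)
      · rw [if_pos h, if_pos (h2' i h)]
      · rw [if_neg h, if_neg (fun h' => h ((hiff i).1 h')), h1' i h]

open Classical in
/-- **the lemma** -/
theorem card_good (Q : (Fin m → Fin n) → Prop) (k : ℕ) :
    (univ.filter fun π => Good Q k (fun r r' => r < r') π).card =
      (univ.filter fun π => Good Q k (fun r r' => r' < r) π).card := by
  have h : ∀ rel : Fin n → Fin n → Prop, (univ.filter fun π => Good Q k rel π).card =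
      ∑ κ ∈ (univ : Finset (Perm (Fin n))).image (key Q),
        (univ.filter fun π => Good Q k rel π ∧ key Q π = κ).card := by
    intro rel
    rw [card_eq_sum_card_fiberwise (f := key Q) (t := (univ : Finset (Perm (Fin n))).image (key Q))
      (fun π _ => mem_image_of_mem _ (mem_univ π))]
    apply sum_congr rfl
    intro κ _
    rw [filter_filter]
  rw [h, h]
  apply sum_congr rfl
  intro κ hκ
  obtain ⟨π₀, _, rfl⟩ := mem_image.1 hκ
  have c1 := count (n := n) (k := k) (rel := fun r r' => r < r') (fun r => lt_irrefl r)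
    (fun R => by convert rel_gt k R) (D := Dom Q π₀) (fun i i' j h h' => dom_mono h le_rfl h')
    (univ.filter fun i => Dom Q π₀ i (π₀ i)) π₀
  have c2 := count (n := n) (k := k) (rel := fun r r' => r' < r) (fun r => lt_irrefl r)
    (fun R => by convert rel_lt k R) (D := Dom Q π₀) (fun i i' j h h' => dom_mono h le_rfl h')
    (univ.filter fun i => Dom Q π₀ i (π₀ i)) π₀
  rw [class_eq, class_eq]
  exact c1.trans c2.symm

end Dominated

section Translation

variable {n : ℕ}

/-- five positions in increasing order whose values satisfy `R` -/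
def Five (R : Fin n → Fin n → Fin n → Fin n → Fin n → Prop) (π : Perm (Fin n)) : Prop :=
  ∃ p0 p1 p2 p3 p4 : Fin n, p0 < p1 ∧ p1 < p2 ∧ p2 < p3 ∧ p3 < p4 ∧ R (π p0) (π p1) (π p2) (π p3) (π p4)

theorem contains_iff (π : Perm (Fin n)) (σ : Fin 5 → ℕ) (hσ : Function.Injective σ) :
    Contains π σ ↔ Five (fun v0 v1 v2 v3 v4 => ∀ a b : Fin 5, σ a < σ b →
      (![v0, v1, v2, v3, v4] : Fin 5 → Fin n) a < (![v0, v1, v2, v3, v4] : Fin 5 → Fin n) b) π := by
  constructor
  · rintro ⟨g, hg, h⟩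
    refine ⟨g 0, g 1, g 2, g 3, g 4, hg (by decide), hg (by decide), hg (by decide), hg (by decide), ?_⟩
    have h1 : ∀ a, (![π (g 0), π (g 1), π (g 2), π (g 3), π (g 4)] : Fin 5 → Fin n) a = π (g a) := by
      intro a
      fin_cases a <;> rfl
    intro a b hab
    rw [h1, h1]
    exact (h a b).2 hab
  · rintro ⟨p0, p1, p2, p3, p4, h0, h1, h2, h3, h⟩
    have hval : ∀ a, (![π p0, π p1, π p2, π p3, π p4] : Fin 5 → Fin n) a =
        π ((![p0, p1, p2, p3, p4] : Fin 5 → Fin n) a) := by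
      intro a
      fin_cases a <;> rfl
    simp only [hval] at h
    refine ⟨![p0, p1, p2, p3, p4], ?_, ?_⟩
    · rw [Fin.strictMono_iff_lt_succ]
      intro i
      fin_cases i
      · exact h0
      · exact h1
      · exact h2
      · exact h3
    · intro a b
      constructor
      · intro hab
        by_contra hcon
        rcases lt_or_eq_of_le (not_lt.1 hcon) with h4 | h4
        · exact lt_asymm hab (h b a h4)
        · rw [hσ h4] at hab
          exact lt_irrefl _ hab
      · exact h a b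

theorem ne_of_lt' {π : Perm (Fin n)} {p q : Fin n} (h : p < q) : (π p : ℕ) ≠ π q := by
  intro h'
  exact h.ne (π.injective (Fin.ext h'))

/-- `45123` or `45213` -/
theorem iff0 (π : Perm (Fin n)) : (Contains π ![4, 5, 1, 2, 3] ∨ Contains π ![4, 5, 2, 1, 3]) ↔
    Five (fun v0 v1 v2 v3 v4 => v2 < v4 ∧ v3 < v4 ∧ v4 < v0 ∧ v0 < v1) π := by
  rw [contains_iff π _ (by decide), contains_iff π _ (by decide)]
  constructor
  · rintro (⟨p0, p1, p2, p3, p4, h0, h1, h2, h3, h⟩ | ⟨p0, p1, p2, p3, p4, h0, h1, h2, h3, h⟩)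
    · exact ⟨p0, p1, p2, p3, p4, h0, h1, h2, h3, h 2 4 (by decide), h 3 4 (by decide), h 4 0 (by decide),
        h 0 1 (by decide)⟩
    · exact ⟨p0, p1, p2, p3, p4, h0, h1, h2, h3, h 2 4 (by decide), h 3 4 (by decide), h 4 0 (by decide),
        h 0 1 (by decide)⟩
  · rintro ⟨p0, p1, p2, p3, p4, h0, h1, h2, h3, h⟩
    have hne := ne_of_lt' (π := π) h2
    simp only [Fin.lt_def] at h
    rcases lt_or_gt_of_ne hne with h4 | h4
    · refine Or.inl ⟨p0, p1, p2, p3, p4, h0, h1, h2, h3, ?_⟩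
      intro a b
      fin_cases a <;> fin_cases b <;> simp <;> exact Fin.lt_def.2 (by omega)
    · refine Or.inr ⟨p0, p1, p2, p3, p4, h0, h1, h2, h3, ?_⟩
      intro a b
      fin_cases a <;> fin_cases b <;> simp <;> exact Fin.lt_def.2 (by omega)

/-- `32154` or `23154` -/
theorem iff1 (π : Perm (Fin n)) : (Contains π ![3, 2, 1, 5, 4] ∨ Contains π ![2, 3, 1, 5, 4]) ↔
    Five (fun v0 v1 v2 v3 v4 => v2 < v0 ∧ v2 < v1 ∧ v0 < v4 ∧ v1 < v4 ∧ v4 < v3) π := by
  rw [contains_iff π _ (by decide), contains_iff π _ (by decide)]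
  constructor
  · rintro (⟨p0, p1, p2, p3, p4, h0, h1, h2, h3, h⟩ | ⟨p0, p1, p2, p3, p4, h0, h1, h2, h3, h⟩)
    · exact ⟨p0, p1, p2, p3, p4, h0, h1, h2, h3, h 2 0 (by decide), h 2 1 (by decide), h 0 4 (by decide),
        h 1 4 (by decide), h 4 3 (by decide)⟩
    · exact ⟨p0, p1, p2, p3, p4, h0, h1, h2, h3, h 2 0 (by decide), h 2 1 (by decide), h 0 4 (by decide),
        h 1 4 (by decide), h 4 3 (by decide)⟩
  · rintro ⟨p0, p1, p2, p3, p4, h0, h1, h2, h3, h⟩
    have hne := ne_of_lt' (π := π) h0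
    simp only [Fin.lt_def] at h
    rcases lt_or_gt_of_ne hne with h4 | h4
    · refine Or.inr ⟨p0, p1, p2, p3, p4, h0, h1, h2, h3, ?_⟩
      intro a b
      fin_cases a <;> fin_cases b <;> simp <;> exact Fin.lt_def.2 (by omega)
    · refine Or.inl ⟨p0, p1, p2, p3, p4, h0, h1, h2, h3, ?_⟩
      intro a b
      fin_cases a <;> fin_cases b <;> simp <;> exact Fin.lt_def.2 (by omega)

/-- `12354` or `21354` -/
theorem iff2 (π : Perm (Fin n)) : (Contains π ![1, 2, 3, 5, 4] ∨ Contains π ![2, 1, 3, 5, 4]) ↔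
    Five (fun v0 v1 v2 v3 v4 => v0 < v2 ∧ v1 < v2 ∧ v2 < v4 ∧ v4 < v3) π := by
  rw [contains_iff π _ (by decide), contains_iff π _ (by decide)]
  constructor
  · rintro (⟨p0, p1, p2, p3, p4, h0, h1, h2, h3, h⟩ | ⟨p0, p1, p2, p3, p4, h0, h1, h2, h3, h⟩)
    · exact ⟨p0, p1, p2, p3, p4, h0, h1, h2, h3, h 0 2 (by decide), h 1 2 (by decide), h 2 4 (by decide),
        h 4 3 (by decide)⟩
    · exact ⟨p0, p1, p2, p3, p4, h0, h1, h2, h3, h 0 2 (by decide), h 1 2 (by decide), h 2 4 (by decide),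
        h 4 3 (by decide)⟩
  · rintro ⟨p0, p1, p2, p3, p4, h0, h1, h2, h3, h⟩
    have hne := ne_of_lt' (π := π) h0
    simp only [Fin.lt_def] at h
    rcases lt_or_gt_of_ne hne with h4 | h4
    · refine Or.inl ⟨p0, p1, p2, p3, p4, h0, h1, h2, h3, ?_⟩
      intro a b
      fin_cases a <;> fin_cases b <;> simp <;> exact Fin.lt_def.2 (by omega)
    · refine Or.inr ⟨p0, p1, p2, p3, p4, h0, h1, h2, h3, ?_⟩
      intro a b
      fin_cases a <;> fin_cases b <;> simp <;> exact Fin.lt_def.2 (by omega)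

/-- `12345` or `12354` -/
theorem iff4 (π : Perm (Fin n)) : (Contains π ![1, 2, 3, 4, 5] ∨ Contains π ![1, 2, 3, 5, 4]) ↔
    Five (fun v0 v1 v2 v3 v4 => v0 < v1 ∧ v1 < v2 ∧ v2 < v3 ∧ v2 < v4) π := by
  rw [contains_iff π _ (by decide), contains_iff π _ (by decide)]
  constructor
  · rintro (⟨p0, p1, p2, p3, p4, h0, h1, h2, h3, h⟩ | ⟨p0, p1, p2, p3, p4, h0, h1, h2, h3, h⟩)
    · exact ⟨p0, p1, p2, p3, p4, h0, h1, h2, h3, h 0 1 (by decide), h 1 2 (by decide), h 2 3 (by decide),
        h 2 4 (by decide)⟩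
    · exact ⟨p0, p1, p2, p3, p4, h0, h1, h2, h3, h 0 1 (by decide), h 1 2 (by decide), h 2 3 (by decide),
        h 2 4 (by decide)⟩
  · rintro ⟨p0, p1, p2, p3, p4, h0, h1, h2, h3, h⟩
    have hne := ne_of_lt' (π := π) h3
    simp only [Fin.lt_def] at h
    rcases lt_or_gt_of_ne hne with h4 | h4
    · refine Or.inl ⟨p0, p1, p2, p3, p4, h0, h1, h2, h3, ?_⟩
      intro a b
      fin_cases a <;> fin_cases b <;> simp <;> exact Fin.lt_def.2 (by omega)
    · refine Or.inr ⟨p0, p1, p2, p3, p4, h0, h1, h2, h3, ?_⟩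
      intro a b
      fin_cases a <;> fin_cases b <;> simp <;> exact Fin.lt_def.2 (by omega)

/-- `21345` or `21354` -/
theorem iff3 (π : Perm (Fin n)) : (Contains π ![2, 1, 3, 4, 5] ∨ Contains π ![2, 1, 3, 5, 4]) ↔
    Five (fun v0 v1 v2 v3 v4 => v1 < v0 ∧ v0 < v2 ∧ v2 < v3 ∧ v2 < v4) π := by
  rw [contains_iff π _ (by decide), contains_iff π _ (by decide)]
  constructor
  · rintro (⟨p0, p1, p2, p3, p4, h0, h1, h2, h3, h⟩ | ⟨p0, p1, p2, p3, p4, h0, h1, h2, h3, h⟩)
    · exact ⟨p0, p1, p2, p3, p4, h0, h1, h2, h3, h 1 0 (by decide), h 0 2 (by decide), h 2 3 (by decide),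
        h 2 4 (by decide)⟩
    · exact ⟨p0, p1, p2, p3, p4, h0, h1, h2, h3, h 1 0 (by decide), h 0 2 (by decide), h 2 3 (by decide),
        h 2 4 (by decide)⟩
  · rintro ⟨p0, p1, p2, p3, p4, h0, h1, h2, h3, h⟩
    have hne := ne_of_lt' (π := π) h3
    simp only [Fin.lt_def] at h
    rcases lt_or_gt_of_ne hne with h4 | h4
    · refine Or.inl ⟨p0, p1, p2, p3, p4, h0, h1, h2, h3, ?_⟩
      intro a b
      fin_cases a <;> fin_cases b <;> simp <;> exact Fin.lt_def.2 (by omega)
    · refine Or.inr ⟨p0, p1, p2, p3, p4, h0, h1, h2, h3, ?_⟩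
      intro a b
      fin_cases a <;> fin_cases b <;> simp <;> exact Fin.lt_def.2 (by omega)

/-- the pattern `21` -/
def Q2 (v : Fin 2 → Fin n) : Prop := v 1 < v 0

/-- the patterns `123` and `132` -/
def Q3 (v : Fin 3 → Fin n) : Prop := v 0 < v 1 ∧ v 0 < v 2

theorem dom2 (π : Perm (Fin n)) (i j : Fin n) :
    Dom Q2 π i j ↔ ∃ p q, i < p ∧ p < q ∧ j < π q ∧ π q < π p := by
  constructor
  · rintro ⟨g, hg, h1, h2⟩
    exact ⟨g 0, g 1, (h2 0).1, hg (by decide), (h2 1).2, h1⟩
  · rintro ⟨p, q, h1, h2, h3, h4⟩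
    refine ⟨![p, q], ?_, h4, ?_⟩
    · rw [Fin.strictMono_iff_lt_succ]
      intro a
      fin_cases a
      exact h2
    · intro a
      fin_cases a
      · exact ⟨h1, h3.trans h4⟩
      · exact ⟨h1.trans h2, h3⟩

theorem dom3 (π : Perm (Fin n)) (i j : Fin n) :
    Dom Q3 π i j ↔ ∃ p q r, i < p ∧ p < q ∧ q < r ∧ j < π p ∧ π p < π q ∧ π p < π r := by
  constructor
  · rintro ⟨g, hg, h1, h2⟩
    exact ⟨g 0, g 1, g 2, (h2 0).1, hg (by decide), hg (by decide), (h2 0).2, h1.1, h1.2⟩
  · rintro ⟨p, q, r, h1, h2, h3, h4, h5, h6⟩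
    refine ⟨![p, q, r], ?_, ⟨h5, h6⟩, ?_⟩
    · rw [Fin.strictMono_iff_lt_succ]
      intro a
      fin_cases a
      · exact h2
      · exact h3
    · intro a
      fin_cases a
      · exact ⟨h1, h4⟩
      · exact ⟨h1.trans h2, h4.trans h5⟩
      · exact ⟨(h1.trans h2).trans h3, h4.trans h6⟩

open Classical in
theorem not_good_two {Q : (Fin 2 → Fin n) → Prop} {rel : Fin n → Fin n → Prop} {π : Perm (Fin n)} :
    ¬ Good Q 2 rel π ↔ ∃ p0 p1 i, p0 < p1 ∧ p1 < i ∧ Dom Q π i (π i) ∧
      (rel (π i) (π p0) ∧ Dom Q π i (π p0)) ∧ (rel (π i) (π p1) ∧ Dom Q π i (π p1)) := by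
  constructor
  · intro h
    unfold Good at h
    push Not at h
    obtain ⟨i, hi, hcard⟩ := h
    obtain ⟨a, ha, b, hb, hab⟩ := Finset.one_lt_card.1 hcard
    rw [mem_filter] at ha hb
    rcases lt_or_gt_of_ne hab with h | h
    · exact ⟨a, b, i, h, hb.2.1, hi, ha.2.2, hb.2.2⟩
    · exact ⟨b, a, i, h, ha.2.1, hi, hb.2.2, ha.2.2⟩
  · rintro ⟨p0, p1, i, h1, h2, h3, h4, h5⟩ hgood
    have h6 := hgood i h3
    have h7 : 1 < ((univ.filter fun i' => Dom Q π i' (π i')).filter
      fun i' => i' < i ∧ rel (π i) (π i') ∧ Dom Q π i (π i')).card := by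
      rw [Finset.one_lt_card]
      refine ⟨p0, ?_, p1, ?_, h1.ne⟩
      · rw [mem_filter, mem_filter]
        exact ⟨⟨mem_univ _, dom_mono (h1.trans h2).le le_rfl h4.2⟩, h1.trans h2, h4⟩
      · rw [mem_filter, mem_filter]
        exact ⟨⟨mem_univ _, dom_mono h2.le le_rfl h5.2⟩, h2, h5⟩
    omega

open Classical in
theorem not_good_one {Q : (Fin 3 → Fin n) → Prop} {rel : Fin n → Fin n → Prop} {π : Perm (Fin n)} :
    ¬ Good Q 1 rel π ↔ ∃ p0 i, p0 < i ∧ Dom Q π i (π i) ∧ rel (π i) (π p0) ∧ Dom Q π i (π p0) := by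
  constructor
  · intro h
    unfold Good at h
    push Not at h
    obtain ⟨i, hi, hcard⟩ := h
    obtain ⟨a, ha⟩ := Finset.card_pos.1 hcard
    rw [mem_filter] at ha
    exact ⟨a, i, ha.2.1, hi, ha.2.2⟩
  · rintro ⟨p0, i, h2, h3, h4⟩ hgood
    have h6 := hgood i h3
    have h7 : 0 < ((univ.filter fun i' => Dom Q π i' (π i')).filter
      fun i' => i' < i ∧ rel (π i) (π i') ∧ Dom Q π i (π i')).card := by
      rw [Finset.card_pos]
      refine ⟨p0, ?_⟩
      rw [mem_filter, mem_filter]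
      exact ⟨⟨mem_univ _, dom_mono h2.le le_rfl h4.2⟩, h2, h4⟩
    omega

theorem good1 (π : Perm (Fin n)) : ¬ Good Q2 2 (fun r r' => r < r') π ↔
    Five (fun v0 v1 v2 v3 v4 => v2 < v0 ∧ v2 < v1 ∧ v0 < v4 ∧ v1 < v4 ∧ v4 < v3) π := by
  rw [not_good_two]
  constructor
  · rintro ⟨p0, p1, i, h1, h2, _, ⟨h4, h5⟩, ⟨h6, h7⟩⟩
    rcases lt_or_ge (π p0) (π p1) with h | h
    · obtain ⟨p, q, e1, e2, e3, e4⟩ := (dom2 π _ _).1 h7
      exact ⟨p0, p1, i, p, q, h1, h2, e1, e2, h4, h6, h.trans e3, e3, e4⟩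
    · obtain ⟨p, q, e1, e2, e3, e4⟩ := (dom2 π _ _).1 h5
      exact ⟨p0, p1, i, p, q, h1, h2, e1, e2, h4, h6, e3, lt_of_le_of_lt h e3, e4⟩
  · rintro ⟨p0, p1, i, p, q, h1, h2, h3, h4, h5, h6, h7, h8, h9⟩
    exact ⟨p0, p1, i, h1, h2, (dom2 π _ _).2 ⟨p, q, h3, h4, h5.trans h7, h9⟩,
      ⟨h5, (dom2 π _ _).2 ⟨p, q, h3, h4, h7, h9⟩⟩, ⟨h6, (dom2 π _ _).2 ⟨p, q, h3, h4, h8, h9⟩⟩⟩

theorem good2 (π : Perm (Fin n)) : ¬ Good Q2 2 (fun r r' => r' < r) π ↔
    Five (fun v0 v1 v2 v3 v4 => v0 < v2 ∧ v1 < v2 ∧ v2 < v4 ∧ v4 < v3) π := by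
  rw [not_good_two]
  constructor
  · rintro ⟨p0, p1, i, h1, h2, h3, ⟨h4, h5⟩, ⟨h6, h7⟩⟩
    obtain ⟨p, q, e1, e2, e3, e4⟩ := (dom2 π _ _).1 h3
    exact ⟨p0, p1, i, p, q, h1, h2, e1, e2, h4, h6, e3, e4⟩
  · rintro ⟨p0, p1, i, p, q, h1, h2, h3, h4, h5, h6, h7, h8⟩
    exact ⟨p0, p1, i, h1, h2, (dom2 π _ _).2 ⟨p, q, h3, h4, h7, h8⟩,
      ⟨h5, (dom2 π _ _).2 ⟨p, q, h3, h4, h5.trans h7, h8⟩⟩,
      ⟨h6, (dom2 π _ _).2 ⟨p, q, h3, h4, h6.trans h7, h8⟩⟩⟩

theorem good3 (π : Perm (Fin n)) : ¬ Good Q3 1 (fun r r' => r < r') π ↔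
    Five (fun v0 v1 v2 v3 v4 => v1 < v0 ∧ v0 < v2 ∧ v2 < v3 ∧ v2 < v4) π := by
  rw [not_good_one]
  constructor
  · rintro ⟨p0, i, h1, _, h4, h5⟩
    obtain ⟨p, q, r, e1, e2, e3, e4, e5, e6⟩ := (dom3 π _ _).1 h5
    exact ⟨p0, i, p, q, r, h1, e1, e2, e3, h4, e4, e5, e6⟩
  · rintro ⟨p0, i, p, q, r, h1, h2, h3, h4, h5, h6, h7, h8⟩
    exact ⟨p0, i, h1, (dom3 π _ _).2 ⟨p, q, r, h2, h3, h4, h5.trans h6, h7, h8⟩, h5,
      (dom3 π _ _).2 ⟨p, q, r, h2, h3, h4, h6, h7, h8⟩⟩

theorem good4 (π : Perm (Fin n)) : ¬ Good Q3 1 (fun r r' => r' < r) π ↔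
    Five (fun v0 v1 v2 v3 v4 => v0 < v1 ∧ v1 < v2 ∧ v2 < v3 ∧ v2 < v4) π := by
  rw [not_good_one]
  constructor
  · rintro ⟨p0, i, h1, h2, h4, h5⟩
    obtain ⟨p, q, r, e1, e2, e3, e4, e5, e6⟩ := (dom3 π _ _).1 h2
    exact ⟨p0, i, p, q, r, h1, e1, e2, e3, h4, e4, e5, e6⟩
  · rintro ⟨p0, i, p, q, r, h1, h2, h3, h4, h5, h6, h7, h8⟩
    exact ⟨p0, i, h1, (dom3 π _ _).2 ⟨p, q, r, h2, h3, h4, h6, h7, h8⟩, h5,
      (dom3 π _ _).2 ⟨p, q, r, h2, h3, h4, h5.trans h6, h7, h8⟩⟩

/-- inverse and complement -/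
theorem sym1 (π : Perm (Fin n)) :
    Five (fun v0 v1 v2 v3 v4 => v2 < v4 ∧ v3 < v4 ∧ v4 < v0 ∧ v0 < v1) π ↔
    Five (fun v0 v1 v2 v3 v4 => v2 < v0 ∧ v2 < v1 ∧ v0 < v4 ∧ v1 < v4 ∧ v4 < v3) (Fin.revPerm * π⁻¹) := by
  have inv1 : ∀ x, π⁻¹ (π x) = x := fun x => π.symm_apply_apply x
  have inv2 : ∀ x, π (π⁻¹ x) = x := fun x => π.apply_symm_apply x
  constructor
  · rintro ⟨p0, p1, p2, p3, p4, h0, h1, h2, h3, e0, e1, e2, e3⟩
    rcases lt_or_gt_of_ne (π.injective.ne h2.ne) with h | h
    · refine ⟨π p2, π p3, π p4, π p0, π p1, h, e1, e2, e3, ?_⟩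
      simp only [Perm.mul_apply, inv1, Fin.revPerm_apply, Fin.rev_lt_rev]
      exact ⟨h2.trans h3, h3, h1, h1.trans h2, h0⟩
    · refine ⟨π p3, π p2, π p4, π p0, π p1, h, e0, e2, e3, ?_⟩
      simp only [Perm.mul_apply, inv1, Fin.revPerm_apply, Fin.rev_lt_rev]
      exact ⟨h3, h2.trans h3, h1.trans h2, h1, h0⟩
  · rintro ⟨q0, q1, q2, q3, q4, h0, h1, h2, h3, e⟩
    simp only [Perm.mul_apply, Fin.revPerm_apply, Fin.rev_lt_rev] at e
    obtain ⟨e0, e1, e2, e3, e4⟩ := e
    rcases lt_or_gt_of_ne ((π⁻¹).injective.ne h0.ne) with h | h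
    · refine ⟨π⁻¹ q3, π⁻¹ q4, π⁻¹ q0, π⁻¹ q1, π⁻¹ q2, e4, e2, h, e1, ?_⟩
      simp only [inv2]
      exact ⟨h0.trans h1, h1, h2, h3⟩
    · refine ⟨π⁻¹ q3, π⁻¹ q4, π⁻¹ q1, π⁻¹ q0, π⁻¹ q2, e4, e3, h, e0, ?_⟩
      simp only [inv2]
      exact ⟨h1, h0.trans h1, h2, h3⟩

/-- reverse and complement -/
theorem sym2 (π : Perm (Fin n)) :
    Five (fun v0 v1 v2 v3 v4 => v0 < v2 ∧ v1 < v2 ∧ v2 < v4 ∧ v4 < v3) π ↔
    Five (fun v0 v1 v2 v3 v4 => v1 < v0 ∧ v0 < v2 ∧ v2 < v3 ∧ v2 < v4) (Fin.revPerm * π * Fin.revPerm) := by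
  constructor
  · rintro ⟨p0, p1, p2, p3, p4, h0, h1, h2, h3, e0, e1, e2, e3⟩
    refine ⟨Fin.rev p4, Fin.rev p3, Fin.rev p2, Fin.rev p1, Fin.rev p0, Fin.rev_lt_rev.2 h3,
      Fin.rev_lt_rev.2 h2, Fin.rev_lt_rev.2 h1, Fin.rev_lt_rev.2 h0, ?_⟩
    simp only [Perm.mul_apply, Fin.revPerm_apply, Fin.rev_rev, Fin.rev_lt_rev]
    exact ⟨e3, e2, e1, e0⟩
  · rintro ⟨q0, q1, q2, q3, q4, h0, h1, h2, h3, e⟩
    simp only [Perm.mul_apply, Fin.revPerm_apply, Fin.rev_lt_rev] at e
    obtain ⟨e0, e1, e2, e3⟩ := e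
    exact ⟨Fin.rev q4, Fin.rev q3, Fin.rev q2, Fin.rev q1, Fin.rev q0, Fin.rev_lt_rev.2 h3,
      Fin.rev_lt_rev.2 h2, Fin.rev_lt_rev.2 h1, Fin.rev_lt_rev.2 h0, e3, e2, e1, e0⟩

theorem ncard_equiv (e : Perm (Fin n) ≃ Perm (Fin n)) (p q : Perm (Fin n) → Prop) (h : ∀ π, p π ↔ q (e π)) :
    {π | p π}.ncard = {π | q π}.ncard := by
  have : {π | q π} = e '' {π | p π} := by
    ext π
    constructor
    · intro hq
      refine ⟨e.symm π, ?_, e.apply_symm_apply π⟩
      show p _
      rw [h, e.apply_symm_apply]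
      exact hq
    · rintro ⟨π', h', rfl⟩
      exact (h π').1 h'
  rw [this, Set.ncard_image_of_injective _ e.injective]

theorem ncard_good {m : ℕ} (Q : (Fin m → Fin n) → Prop) (k : ℕ) :
    {π | Good Q k (fun r r' => r < r') π}.ncard = {π | Good Q k (fun r r' => r' < r) π}.ncard := by
  classical
  have h := card_good Q k
  rw [Set.ncard_eq_toFinset_card', Set.ncard_eq_toFinset_card']
  convert h using 2
  · ext π
    simp
  · ext π
    simp

end Translation

/-- **`{45123, 45213}` and `{12345, 12354}` are Wilf-equivalent.** -/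
theorem result (n : ℕ) :
    {π : Perm (Fin n) | ¬ Contains π ![4, 5, 1, 2, 3] ∧ ¬ Contains π ![4, 5, 2, 1, 3]}.ncard =
      {π : Perm (Fin n) | ¬ Contains π ![1, 2, 3, 4, 5] ∧ ¬ Contains π ![1, 2, 3, 5, 4]}.ncard := by
  simp only [← not_or, iff0, iff4]
  have h1 := ncard_equiv (n := n) ((Equiv.inv (Perm (Fin n))).trans (Equiv.mulLeft Fin.revPerm))
    (fun π => ¬ Five (fun v0 v1 v2 v3 v4 => v2 < v4 ∧ v3 < v4 ∧ v4 < v0 ∧ v0 < v1) π)
    (fun π => Good Q2 2 (fun r r' => r < r') π) (fun π => by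
      rw [sym1, ← good1, not_not]
      rfl)
  have h2 := ncard_equiv (n := n) ((Equiv.mulLeft Fin.revPerm).trans (Equiv.mulRight Fin.revPerm))
    (fun π => Good Q2 2 (fun r r' => r' < r) π) (fun π => Good Q3 1 (fun r r' => r < r') π) (fun π => by
      rw [← not_iff_not, good2, good3, sym2]
      rfl)
  have h3 : {π : Perm (Fin n) | ¬ Five (fun v0 v1 v2 v3 v4 => v0 < v1 ∧ v1 < v2 ∧ v2 < v3 ∧ v2 < v4) π} =
      {π | Good Q3 1 (fun r r' => r' < r) π} := by
    ext π
    show ¬ Five _ π ↔ _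
    rw [← good4, not_not]
    rfl
  rw [h1, ncard_good, h2, ncard_good, h3]

end Pool.Agent.Results.MP_b2be16_co.WilfEquivalent
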